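import Pool.Agent.Q85.VL.Defs

/-!
# Job VL-7 of helper85: the bound of the integrals over small cubes
-/

set_option autoImplicit false

open MeasureTheory Set Metric Filter Topology
open scoped ContDiff
open H459R3.NS Pool.Agent.W268.NS Pool.Agent.Q67.VD
open Pool.Agent.Q85.CC Pool.Agent.Q85.CL Pool.Agent.Q151.CC Pool.Agent.Q85.VL

namespace Pool.Agent.Q98.VL

lemma int_on' {F : V → ℝ} (hF : Continuous F) (x : V) (R : ℝ) :
    IntegrableOn F (closedBall x R) :=
  hF.continuousOn.integrableOn_compact (isCompact_closedBall x R)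

section main

variable {κ ρ R r μ : ℝ} {x : V} {f m : V → ℝ} {W : V → V} {g : V → ℝ}

lemma f_nonneg' (h : LF κ R x f m W g) {y : V} (hy : y ∈ closedBall x R) : 0 ≤ f y :=
  (Real.sqrt_nonneg _).trans (h.up y hy)

lemma int_mono_m (h : LF κ R x f m W g) {a b : ℝ} (hab : a ≤ b) :
    ∫ y in closedBall x a, m y ≤ ∫ y in closedBall x b, m y :=
  setIntegral_mono_set (int_on' h.mc x b) (ae_of_all _ h.m0)
    (closedBall_subset_closedBall hab).eventuallyLE

lemma int_m_nonneg (h : LF κ R x f m W g) (a : ℝ) : 0 ≤ ∫ y in closedBall x a, m y :=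
  setIntegral_nonneg measurableSet_closedBall fun y _ => h.m0 y

lemma int_mono_f (h : LF κ R x f m W g) {a : ℝ} (ha : a ≤ R) :
    ∫ y in closedBall x a, f y ≤ ∫ y in closedBall x R, f y := by
  refine setIntegral_mono_set (int_on' h.fc x R) ?_ (closedBall_subset_closedBall ha).eventuallyLE
  filter_upwards [ae_restrict_mem measurableSet_closedBall] with y hy
  exact f_nonneg' h hy

lemma mu_nonneg (hK : KS R x m μ) : 0 ≤ μ := by
  have h := hK 0
  simpa using h

lemma KS_term (h : LF κ R x f m W g) (hR : 0 < R) (hK : KS R x m μ) (k : ℕ) :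
    ∫ y in closedBall x ((1 / 256 : ℝ) ^ k * R), m y ≤ ((1 / 256 : ℝ) ^ k * R) * μ := by
  have h1 := hK (k + 1)
  have hpos : 0 < (1 / 256 : ℝ) ^ k * R := by positivity
  have h2 : ((1 / 256 : ℝ) ^ k * R)⁻¹ * ∫ y in closedBall x ((1 / 256 : ℝ) ^ k * R), m y ≤ μ := by
    refine le_trans ?_ h1
    refine Finset.single_le_sum (f := fun j : ℕ => ((1 / 256 : ℝ) ^ j * R)⁻¹ *
      ∫ y in closedBall x ((1 / 256 : ℝ) ^ j * R), m y) (fun j _ => ?_)
      (Finset.mem_range.2 (Nat.lt_succ_self k))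
    exact mul_nonneg (by positivity) (int_m_nonneg h _)
  rw [inv_mul_le_iff₀ hpos] at h2
  exact h2

/-- the fluxes at all the scales are bounded -/
lemma chain (hU : StmUB) (hC : StmCmp) (hκ : 0 < κ) (hκ1 : κ ≤ 1) (hρ : 0 < ρ) (hR : 0 < R)
    (h : LF κ R x f m W g) (hK : KS R x m μ) (n : ℕ) :
    AA κ ρ R g x W m ((1 / 256) ^ n * (R / 4)) ≤
      524288 / κ * ((∫ y in closedBall x R, f y) / R + μ) := by
  have hμ := mu_nonneg hK
  have hF : 0 ≤ ∫ y in closedBall x R, f y :=
    setIntegral_nonneg measurableSet_closedBall fun y hy => f_nonneg' h hy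
  -- the chain
  have h1 : ∀ n : ℕ, AA κ ρ R g x W m ((1 / 256) ^ n * (R / 4)) ≤
      AA κ ρ R g x W m (R / 4) + 262144 / κ * ∑ j ∈ Finset.range n,
        ((1 / 256 : ℝ) ^ j * R)⁻¹ * ∫ y in closedBall x ((1 / 256 : ℝ) ^ j * R), m y := by
    intro n
    induction n with
    | zero => simp
    | succ n ih =>
      have hp : (0 : ℝ) < (1 / 256) ^ n := by positivity
      have hp1 : (1 / 256 : ℝ) ^ n ≤ 1 := pow_le_one₀ (by norm_num) (by norm_num)
      have h2 := hC κ ρ R ((1 / 256) ^ n * (R / 4)) ((1 / 256) ^ (n + 1) * (R / 4)) x f m W g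
        hκ hκ1 hρ h (by positivity) (by rw [pow_succ]; nlinarith) (by nlinarith)
      have h3 : 256 / (κ * ((1 / 256) ^ (n + 1) * (R / 4))) *
          ∫ y in closedBall x ((1 / 256) ^ n * (R / 4)), m y ≤ 262144 / κ *
          (((1 / 256 : ℝ) ^ n * R)⁻¹ * ∫ y in closedBall x ((1 / 256 : ℝ) ^ n * R), m y) := by
        have e : 256 / (κ * ((1 / 256) ^ (n + 1) * (R / 4))) =
            262144 / κ * ((1 / 256 : ℝ) ^ n * R)⁻¹ := by
          rw [pow_succ]
          field_simp
          ring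
        rw [e, mul_assoc]
        refine mul_le_mul_of_nonneg_left ?_ (by positivity)
        refine mul_le_mul_of_nonneg_left ?_ (by positivity)
        exact int_mono_m h (by nlinarith)
      rw [Finset.sum_range_succ, mul_add]
      linarith
  have h4 : AA κ ρ R g x W m (R / 4) ≤
      512 / κ * (2 * ((∫ y in closedBall x R, f y) / R) + μ) := by
    have h5 := hU κ ρ R (R / 4) x f m W g hκ hκ1 hρ h (by positivity) (by linarith)
    have h6 : ∫ y in closedBall x (R / 4), (2 * f y + m y) ≤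
        2 * (∫ y in closedBall x R, f y) + R * μ := by
      rw [integral_add ((int_on' h.fc x (R / 4)).const_mul 2) (int_on' h.mc x (R / 4)),
        integral_const_mul]
      have h7 := int_mono_f h (a := R / 4) (by linarith)
      have h8 := int_mono_m h (a := R / 4) (b := R) (by linarith)
      have h9 := KS_term h hR hK 0
      rw [pow_zero, one_mul] at h9
      linarith
    have e : 128 / (κ * (R / 4)) = 512 / κ * R⁻¹ := by
      field_simp
      ring
    rw [e, mul_assoc] at h5
    refine h5.trans (mul_le_mul_of_nonneg_left ?_ (by positivity))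
    rw [inv_mul_le_iff₀ hR]
    refine h6.trans (le_of_eq ?_)
    field_simp
  have h10 : 262144 / κ * ∑ j ∈ Finset.range n, ((1 / 256 : ℝ) ^ j * R)⁻¹ *
      ∫ y in closedBall x ((1 / 256 : ℝ) ^ j * R), m y ≤ 262144 / κ * μ :=
    mul_le_mul_of_nonneg_left (hK n) (by positivity)
  have hFR : 0 ≤ (∫ y in closedBall x R, f y) / R := by positivity
  have h11 : 512 / κ * (2 * ((∫ y in closedBall x R, f y) / R) + μ) + 262144 / κ * μ ≤
      524288 / κ * ((∫ y in closedBall x R, f y) / R + μ) := by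
    have e : 524288 / κ * ((∫ y in closedBall x R, f y) / R + μ) -
        (512 / κ * (2 * ((∫ y in closedBall x R, f y) / R) + μ) + 262144 / κ * μ) =
        (523264 * ((∫ y in closedBall x R, f y) / R) + 261632 * μ) / κ := by ring
    have h12 : 0 ≤ (523264 * ((∫ y in closedBall x R, f y) / R) + 261632 * μ) / κ := by positivity
    linarith
  linarith [h1 n]

end main

theorem morV (hU : StmUB) (hC : StmCmp) (hL : StmLB) : StmMorV := by
  intro κ hκ hκ1
  refine ⟨2 ^ 43 / κ ^ 2, κ / 512, by positivity, by positivity, by linarith, ?_⟩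
  intro R μ x f m W g hR h hK r hr hrR
  have hμ := mu_nonneg hK
  have hF : 0 ≤ ∫ y in closedBall x R, f y :=
    setIntegral_nonneg measurableSet_closedBall fun y hy => f_nonneg' h hy
  set A := (∫ y in closedBall x R, f y) / R + μ with hA
  have hA0 : 0 ≤ A := by positivity
  have hAμ : μ ≤ A := by
    have : 0 ≤ (∫ y in closedBall x R, f y) / R := by positivity
    linarith
  -- the scale
  have h0 : 128 / κ * r ≤ (1 / 256 : ℝ) ^ 0 * (R / 4) := by
    rw [pow_zero, one_mul, div_mul_eq_mul_div, div_le_iff₀ hκ]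
    nlinarith
  obtain ⟨n, hn1, hn2⟩ : ∃ n : ℕ, 128 / κ * r ≤ (1 / 256 : ℝ) ^ n * (R / 4) ∧
      (1 / 256 : ℝ) ^ (n + 1) * (R / 4) < 128 / κ * r := by
    by_contra hcon
    push Not at hcon
    have hall : ∀ n : ℕ, 128 / κ * r ≤ (1 / 256 : ℝ) ^ n * (R / 4) := by
      intro n
      induction n with
      | zero => exact h0
      | succ n ih => exact hcon n ih
    have ht : Tendsto (fun n : ℕ => (1 / 256 : ℝ) ^ n * (R / 4)) atTop (𝓝 (0 * (R / 4))) :=
      (tendsto_pow_atTop_nhds_zero_of_lt_one (by norm_num) (by norm_num)).mul_const _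
    have h2 := ge_of_tendsto ht (Eventually.of_forall hall)
    have h3 : 0 < 128 / κ * r := by positivity
    linarith
  set s := (1 / 256 : ℝ) ^ n * (R / 4) with hs
  have hs0 : 0 < s := by positivity
  have hs1 : s ≤ 32768 / κ * r := by
    have e : (1 / 256 : ℝ) ^ (n + 1) * (R / 4) = s / 256 := by
      rw [hs, pow_succ]
      ring
    rw [e] at hn2
    have e2 : 32768 / κ * r = 256 * (128 / κ * r) := by ring
    rw [e2]
    linarith
  have hp1 : (1 / 256 : ℝ) ^ n ≤ 1 := pow_le_one₀ (by norm_num) (by norm_num)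
  have hsR : s ≤ R := by
    have : s ≤ 1 * (R / 4) := mul_le_mul_of_nonneg_right hp1 (by positivity)
    linarith
  have h1 := hL κ r R s x f m W g hκ hκ1 hr h hn1 hsR
  have h2 : AA κ r R g x W m s ≤ 524288 / κ * A := chain hU hC hκ hκ1 hr hR h hK n
  have h3 : ∫ y in closedBall x s, m y ≤ 4 * s * A := by
    have h4 := KS_term h hR hK n
    have h5 : ∫ y in closedBall x s, m y ≤ ∫ y in closedBall x ((1 / 256 : ℝ) ^ n * R), m y :=
      int_mono_m h (by
        rw [hs]
        have : (0 : ℝ) < (1 / 256) ^ n := by positivity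
        nlinarith)
    have h6 : (1 / 256 : ℝ) ^ n * R * μ ≤ 4 * s * A := by
      have e : (1 / 256 : ℝ) ^ n * R = 4 * s := by
        rw [hs]
        ring
      rw [e]
      exact mul_le_mul_of_nonneg_left hAμ (by positivity)
    linarith
  have h7 : 2 * κ * r * ∫ y in closedBall x r, f y ≤ 8193 * κ * s ^ 2 * A := by
    have h8 : (κ * s / 8) ^ 2 * AA κ r R g x W m s ≤ (κ * s / 8) ^ 2 * (524288 / κ * A) :=
      mul_le_mul_of_nonneg_left h2 (by positivity)
    have h9 : κ * s / 4 * ∫ y in closedBall x s, m y ≤ κ * s / 4 * (4 * s * A) :=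
      mul_le_mul_of_nonneg_left h3 (by positivity)
    have e : (κ * s / 8) ^ 2 * (524288 / κ * A) + κ * s / 4 * (4 * s * A) =
        8193 * κ * s ^ 2 * A := by
      field_simp
      ring
    linarith
  have h10 : s ^ 2 ≤ (32768 / κ * r) ^ 2 := pow_le_pow_left₀ hs0.le hs1 2
  have h11 : 8193 * κ * s ^ 2 * A ≤ 8193 * κ * (32768 / κ * r) ^ 2 * A := by
    refine mul_le_mul_of_nonneg_right ?_ hA0
    exact mul_le_mul_of_nonneg_left h10 (by positivity)
  have h12 : 2 * κ * r * ∫ y in closedBall x r, f y ≤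
      2 * κ * r * (2 ^ 43 / κ ^ 2 * A * r) := by
    refine (h7.trans h11).trans ?_
    have e : 2 * κ * r * (2 ^ 43 / κ ^ 2 * A * r) - 8193 * κ * (32768 / κ * r) ^ 2 * A =
        (2 ^ 44 - 8193 * 2 ^ 30) * r ^ 2 * A / κ := by
      field_simp
      ring
    have h13 : 0 ≤ (2 ^ 44 - 8193 * 2 ^ 30) * r ^ 2 * A / κ := by
      have : (0 : ℝ) ≤ 2 ^ 44 - 8193 * 2 ^ 30 := by norm_num
      positivity
    linarith
  exact le_of_mul_le_mul_left h12 (by positivity)

end Pool.Agent.Q98.VL
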